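import Pool.Agent.H74.SB.Tr

/-!
# SB Len: the colength of an ideal under a blow-up: `i (a, b) ≥ l ^ 2 + i (a', b')`
-/

set_option autoImplicit false

open MvPowerSeries Finsupp

noncomputable section

namespace Pool.Agent.H74.SB

/-- the dimension of `R / J` -/
def dim (J : Ideal R) : ℕ := Module.finrank ℂ (R ⧸ J.restrictScalars ℂ)

theorem finQ {J : Ideal R} {K : ℕ} (h : M K ≤ J) : Module.Finite ℂ (R ⧸ J.restrictScalars ℂ) := by
  refine Module.Finite.of_surjective ((J.restrictScalars ℂ).mkQ ∘ₗ lf K) ?_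
  intro q
  obtain ⟨f, rfl⟩ := (J.restrictScalars ℂ).mkQ_surjective q
  refine ⟨tr K f, ?_⟩
  rw [LinearMap.comp_apply, ← sub_eq_zero, ← map_sub]
  rw [← neg_sub, map_neg, neg_eq_zero, Submodule.mkQ_apply, Submodule.Quotient.mk_eq_zero]
  exact h (sub_lf_mem f)

theorem finrank_le_dim {J : Ideal R} {K : ℕ} (h : M K ≤ J) {V : Type*} [AddCommGroup V] [Module ℂ V] (φ : R →ₗ[ℂ] V)
    (hφ : Function.Surjective φ) (hJ : ∀ f ∈ J, φ f = 0) : Module.finrank ℂ V ≤ dim J := by
  have := finQ h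
  refine LinearMap.finrank_le_finrank_of_surjective (f := (J.restrictScalars ℂ).liftQ φ fun f hf => LinearMap.mem_ker.2 (hJ f hf)) ?_
  intro v
  obtain ⟨f, rfl⟩ := hφ v
  exact ⟨(J.restrictScalars ℂ).mkQ f, by simp⟩

theorem dim_mono {I J : Ideal R} {K : ℕ} (h : M K ≤ I) (hIJ : I ≤ J) : dim J ≤ dim I :=
  finrank_le_dim h _ (Submodule.mkQ_surjective _) fun f hf => by
    rw [Submodule.mkQ_apply, Submodule.Quotient.mk_eq_zero]
    exact hIJ hf

/-- the first half of the count -/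
theorem step1 {a b : R} {l k K : ℕ} (ha : a ∈ M l) (hb : b.order = l) (hk : 2 * l ≤ k) :
    dim (M (k - l) * Ideal.span {a, b} ⊔ M K) + Fintype.card (T (k - 2 * l)) ≤
      dim (Ideal.span {a, b} ⊔ M K) + 2 * Fintype.card (T (k - l)) := by
  set J : Ideal R := M (k - l) * Ideal.span {a, b} ⊔ M K with hJ
  have : Module.Finite ℂ (R ⧸ J.restrictScalars ℂ) := finQ (K := K) le_sup_right
  have ha' : a ∈ Ideal.span ({a, b} : Set R) := Ideal.subset_span (by simp)
  have hb' : b ∈ Ideal.span ({a, b} : Set R) := Ideal.subset_span (by simp)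
  -- the map `(α, β) ↦ α a + β b`
  let F0 : (T (k - l) → ℂ) × (T (k - l) → ℂ) →ₗ[ℂ] R :=
    (LinearMap.mulRight ℂ a ∘ₗ lf (k - l)).coprod (LinearMap.mulRight ℂ b ∘ₗ lf (k - l))
  have hF0 : ∀ p, F0 p = lf (k - l) p.1 * a + lf (k - l) p.2 * b := fun p => by simp [F0]
  let F : (T (k - l) → ℂ) × (T (k - l) → ℂ) →ₗ[ℂ] (R ⧸ J.restrictScalars ℂ) := (J.restrictScalars ℂ).mkQ ∘ₗ F0
  have hzero : ∀ f ∈ J, (J.restrictScalars ℂ).mkQ f = 0 := fun f hf => by
    rw [Submodule.mkQ_apply, Submodule.Quotient.mk_eq_zero]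
    exact hf
  -- the relations
  let G : (T (k - 2 * l) → ℂ) →ₗ[ℂ] (T (k - l) → ℂ) × (T (k - l) → ℂ) :=
    (tr (k - l) ∘ₗ LinearMap.mulRight ℂ b ∘ₗ lf (k - 2 * l)).prod (-(tr (k - l) ∘ₗ LinearMap.mulRight ℂ a ∘ₗ lf (k - 2 * l)))
  have hG1 : ∀ c, (G c).1 = tr (k - l) (lf (k - 2 * l) c * b) := fun c => by simp [G]
  have hG2 : ∀ c, (G c).2 = -tr (k - l) (lf (k - 2 * l) c * a) := fun c => by simp [G]
  have hGinj : Function.Injective G := by
    rw [injective_iff_map_eq_zero]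
    intro c hc
    have h1 := congrArg Prod.fst hc
    rw [hG1, Prod.fst_zero, tr_eq_zero] at h1
    have h2 : lf (k - 2 * l) c ∈ M (k - 2 * l) := mem_M_of_mul hb (by rwa [show k - 2 * l + l = k - l by omega])
    rw [← tr_eq_zero, tr_lf] at h2
    exact h2
  have hGF : ∀ c, F (G c) = 0 := by
    intro c
    set γ := lf (k - 2 * l) c
    have e1 : F0 (G c) = -((γ * b - lf (k - l) (tr (k - l) (γ * b))) * a) + (γ * a - lf (k - l) (tr (k - l) (γ * a))) * b := by
      rw [hF0, hG1, hG2, map_neg]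
      ring
    show (J.restrictScalars ℂ).mkQ (F0 (G c)) = 0
    rw [e1]
    apply hzero
    refine Ideal.mem_sup_left (Ideal.add_mem _ (Ideal.neg_mem_iff _ |>.2 ?_) ?_)
    · exact Ideal.mul_mem_mul (sub_lf_mem _) ha'
    · exact Ideal.mul_mem_mul (sub_lf_mem _) hb'
  have hker : Fintype.card (T (k - 2 * l)) ≤ Module.finrank ℂ (LinearMap.ker F) := by
    rw [← Module.finrank_fintype_fun_eq_card ℂ (η := T (k - 2 * l))]
    exact LinearMap.finrank_le_finrank_of_injective (f := G.codRestrict (LinearMap.ker F) hGF) (fun x y h => hGinj (congrArg Subtype.val h))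
  have hrn := LinearMap.finrank_range_add_finrank_ker F
  rw [Module.finrank_prod, Module.finrank_fintype_fun_eq_card] at hrn
  have hq := Submodule.finrank_quotient_add_finrank (LinearMap.range F)
  have hcok : Module.finrank ℂ ((R ⧸ J.restrictScalars ℂ) ⧸ LinearMap.range F) ≤ dim (Ideal.span {a, b} ⊔ M K) := by
    refine finrank_le_dim (K := K) le_sup_right ((LinearMap.range F).mkQ ∘ₗ (J.restrictScalars ℂ).mkQ)
      ((Submodule.mkQ_surjective _).comp (Submodule.mkQ_surjective _)) ?_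
    intro f hf
    obtain ⟨g, hg, h, hh, rfl⟩ := Submodule.mem_sup.1 hf
    obtain ⟨α, β, rfl⟩ := Ideal.mem_span_pair.1 hg
    rw [LinearMap.comp_apply, map_add, hzero h (Ideal.mem_sup_right hh), add_zero, Submodule.mkQ_apply _ ((J.restrictScalars ℂ).mkQ _),
      Submodule.Quotient.mk_eq_zero]
    refine ⟨(tr (k - l) α, tr (k - l) β), ?_⟩
    show (J.restrictScalars ℂ).mkQ (F0 _) = _
    rw [← sub_eq_zero, ← map_sub]
    apply hzero
    have e1 : F0 (tr (k - l) α, tr (k - l) β) - (α * a + β * b) =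
        -((α - lf (k - l) (tr (k - l) α)) * a) + -((β - lf (k - l) (tr (k - l) β)) * b) := by
      rw [hF0]
      ring
    rw [e1]
    refine Ideal.mem_sup_left (Ideal.add_mem _ (Ideal.neg_mem_iff _ |>.2 ?_) (Ideal.neg_mem_iff _ |>.2 ?_))
    · exact Ideal.mul_mem_mul (sub_lf_mem _) ha'
    · exact Ideal.mul_mem_mul (sub_lf_mem _) hb'
  show Module.finrank ℂ (R ⧸ J.restrictScalars ℂ) + _ ≤ _
  omega

/-- the second half of the count -/
theorem step2 {a b : R} {l k K : ℕ} (ha : a ∈ M l) (hb : b ∈ M l) (hlk : l ≤ k) (hk : K ≤ k) :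
    Fintype.card (T k) + dim (Ideal.span {ph l a, ph l b} ⊔ M K) ≤ dim (M (k - l) * Ideal.span {a, b} ⊔ M (k + K)) := by
  set I : Ideal R := Ideal.span {ph l a, ph l b} ⊔ M K with hI
  have : Module.Finite ℂ (R ⧸ I.restrictScalars ℂ) := finQ (K := K) le_sup_right
  have hzero : ∀ f ∈ I, (I.restrictScalars ℂ).mkQ f = 0 := fun f hf => by
    rw [Submodule.mkQ_apply, Submodule.Quotient.mk_eq_zero]
    exact hf
  let φ : R →ₗ[ℂ] (T k → ℂ) × (R ⧸ I.restrictScalars ℂ) := (tr k).prod ((I.restrictScalars ℂ).mkQ ∘ₗ ph k)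
  have hφ : ∀ f, φ f = (tr k f, (I.restrictScalars ℂ).mkQ (ph k f)) := fun f => rfl
  have hsurj : Function.Surjective φ := by
    rintro ⟨c, q⟩
    obtain ⟨g, rfl⟩ := (I.restrictScalars ℂ).mkQ_surjective q
    obtain ⟨h, hh, hhg⟩ := exists_ph hk g
    refine ⟨lf k c + h, ?_⟩
    rw [hφ, map_add, tr_lf, tr_eq_zero.2 hh, add_zero, map_add, ph_lf, zero_add]
    congr 1
    rw [← sub_eq_zero, ← map_sub]
    exact hzero _ (Ideal.mem_sup_right hhg)
  have h1 : Module.finrank ℂ ((T k → ℂ) × (R ⧸ I.restrictScalars ℂ)) ≤ dim (M (k - l) * Ideal.span {a, b} ⊔ M (k + K)) := by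
    refine finrank_le_dim (K := k + K) le_sup_right φ hsurj ?_
    intro f hf
    -- members of the first ideal
    have hgen : ∀ g ∈ M (k - l) * Ideal.span {a, b}, g ∈ M k ∧ ph k g ∈ Ideal.span {ph l a, ph l b} := by
      intro g hg
      refine Submodule.mul_induction_on hg ?_ ?_
      · intro m hm n hn
        obtain ⟨α, β, rfl⟩ := Ideal.mem_span_pair.1 hn
        have e : m * (α * a + β * b) = m * α * a + m * β * b := by ring
        have hmα : m * α ∈ M (k - l) := Ideal.mul_mem_right _ _ hm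
        have hmβ : m * β ∈ M (k - l) := Ideal.mul_mem_right _ _ hm
        have e2 : k - l + l = k := by omega
        have p1 := ph_mul hmα ha
        have p2 := ph_mul hmβ hb
        have q1 := mul_mem_M hmα ha
        have q2 := mul_mem_M hmβ hb
        rw [e2] at p1 p2 q1 q2
        rw [e]
        refine ⟨Ideal.add_mem _ q1 q2, ?_⟩
        rw [map_add, p1, p2]
        exact Ideal.mem_span_pair.2 ⟨_, _, rfl⟩
      · intro x y hx hy
        exact ⟨Ideal.add_mem _ hx.1 hy.1, by rw [map_add]; exact Ideal.add_mem _ hx.2 hy.2⟩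
    obtain ⟨g, hg, h, hh, rfl⟩ := Submodule.mem_sup.1 hf
    obtain ⟨hg1, hg2⟩ := hgen g hg
    rw [hφ, map_add, tr_eq_zero.2 hg1, tr_eq_zero.2 (M_anti (Nat.le_add_right _ _) hh), add_zero, map_add, map_add,
      hzero _ (Ideal.mem_sup_left hg2), hzero _ (Ideal.mem_sup_right (ph_mem hh)), add_zero]
    rfl
  rw [Module.finrank_prod, Module.finrank_fintype_fun_eq_card] at h1
  exact h1

/-- `i (a, b) ≥ l ^ 2 + i (a', b')`, with truncations -/
theorem dim_ph {a b : R} {l : ℕ} (ha : a ∈ M l) (hb : b.order = l) (K : ℕ) :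
    dim (Ideal.span {ph l a, ph l b} ⊔ M K) + l * l ≤ dim (Ideal.span {a, b} ⊔ M (K + 2 * l + K)) := by
  have h1 := step1 (K := K + 2 * l + K) ha hb (k := K + 2 * l) (by omega)
  have h2 := step2 (K := K) ha (mem_M_order.2 hb.ge) (k := K + 2 * l) (by omega) (by omega)
  have c1 := card_T (K + 2 * l)
  have c2 := card_T (K + l)
  have c3 := card_T K
  rw [show K + 2 * l - l = K + l by omega, show K + 2 * l - 2 * l = K by omega] at h1
  rw [show K + 2 * l - l = K + l by omega] at h2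
  nlinarith

end Pool.Agent.H74.SB
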