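import Mathlib

/-!
# SB Tr: formal power series in two variables, truncations, the transform of a series of order `k` under the blow-up `(x, y) = (x, x t)`
-/

set_option autoImplicit false

open MvPowerSeries Finsupp

noncomputable section

namespace Pool.Agent.H74.SB

/-- `ℂ⟦x, y⟧` -/
abbrev R := MvPowerSeries (Fin 2) ℂ

/-- the exponent of `x ^ i y ^ j` -/
def mon (i j : ℕ) : Fin 2 →₀ ℕ := single 0 i + single 1 j

@[simp] theorem mon_zero (i j : ℕ) : mon i j 0 = i := by simp [mon]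

@[simp] theorem mon_one (i j : ℕ) : mon i j 1 = j := by simp [mon]

theorem eq_mon (d : Fin 2 →₀ ℕ) : d = mon (d 0) (d 1) := by
  ext i
  fin_cases i <;> simp

theorem degree_mon (d : Fin 2 →₀ ℕ) : degree d = d 0 + d 1 := by
  rw [degree_eq_sum, Fin.sum_univ_two]

/-- the series of order at least `k` -/
def M (k : ℕ) : Ideal R where
  carrier := {f | (k : ℕ∞) ≤ f.order}
  add_mem' := fun hf hg => (le_min hf hg).trans min_order_le_add
  zero_mem' := by simp
  smul_mem' := fun _ _ hf => (le_add_left hf).trans le_order_mul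

theorem mem_M {k : ℕ} {f : R} : f ∈ M k ↔ ∀ i j, i + j < k → coeff (mon i j) f = 0 := by
  constructor
  · intro h i j hij
    refine coeff_of_lt_order (lt_of_lt_of_le ?_ h)
    rw [degree_mon]
    simpa using mod_cast hij
  · intro h
    refine nat_le_order fun d hd => ?_
    rw [degree_mon] at hd
    rw [eq_mon d]
    exact h _ _ hd

theorem mem_M_order {k : ℕ} {f : R} : f ∈ M k ↔ (k : ℕ∞) ≤ f.order := Iff.rfl

theorem M_anti {k l : ℕ} (h : k ≤ l) : M l ≤ M k := fun _ hf => mem_M.2 fun i j hij => mem_M.1 hf i j (lt_of_lt_of_le hij h)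

theorem mul_mem_M {k l : ℕ} {f g : R} (hf : f ∈ M k) (hg : g ∈ M l) : f * g ∈ M (k + l) := by
  rw [mem_M_order] at *
  push_cast
  exact (add_le_add hf hg).trans le_order_mul

/-- a product with a series of order exactly `l` -/
theorem mem_M_of_mul {k l : ℕ} {f g : R} (hg : g.order = l) (h : f * g ∈ M (k + l)) : f ∈ M k := by
  rw [mem_M_order, order_mul, hg] at h
  push_cast at h
  exact (ENat.add_le_add_iff_right (by simp)).1 h

/-- the monomials of degree less than `k` -/
abbrev T (k : ℕ) := (n : Fin k) × Fin (n + 1)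

theorem card_T (k : ℕ) : 2 * Fintype.card (T k) = k * (k + 1) := by
  have h : Fintype.card (T k) = ∑ i ∈ Finset.range (k + 1), i := by
    rw [Finset.sum_range_succ', Fintype.card_sigma]
    simp only [Fintype.card_fin, add_zero]
    exact Fin.sum_univ_eq_sum_range (fun i => i + 1) k
  rw [h, mul_comm 2, Finset.sum_range_id_mul_two]
  simp [mul_comm]

/-- the truncation -/
def tr (k : ℕ) : R →ₗ[ℂ] (T k → ℂ) where
  toFun f t := coeff (mon (t.1 - t.2) t.2) f
  map_add' f g := by ext; simp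
  map_smul' c f := by ext; simp

theorem tr_eq_zero {k : ℕ} {f : R} : tr k f = 0 ↔ f ∈ M k := by
  rw [mem_M]
  constructor
  · intro h i j hij
    have := congrFun h ⟨⟨i + j, hij⟩, ⟨j, by simp⟩⟩
    simpa [tr] using this
  · intro h
    ext t
    refine h _ _ ?_
    have h1 := t.1.2
    have h2 := t.2.2
    omega

/-- the polynomial with the given coefficients -/
def lf (k : ℕ) : (T k → ℂ) →ₗ[ℂ] R where
  toFun c := fun d => if h : d 0 + d 1 < k then c ⟨⟨d 0 + d 1, h⟩, ⟨d 1, by simp⟩⟩ else 0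
  map_add' f g := by
    funext d
    show (if h : d 0 + d 1 < k then (f + g) ⟨⟨d 0 + d 1, h⟩, ⟨d 1, by simp⟩⟩ else 0) =
      (if h : d 0 + d 1 < k then f ⟨⟨d 0 + d 1, h⟩, ⟨d 1, by simp⟩⟩ else 0) +
        (if h : d 0 + d 1 < k then g ⟨⟨d 0 + d 1, h⟩, ⟨d 1, by simp⟩⟩ else 0)
    by_cases h : d 0 + d 1 < k <;> simp [h]
  map_smul' c f := by
    funext d
    show (if h : d 0 + d 1 < k then (c • f) ⟨⟨d 0 + d 1, h⟩, ⟨d 1, by simp⟩⟩ else 0) =
      c • (if h : d 0 + d 1 < k then f ⟨⟨d 0 + d 1, h⟩, ⟨d 1, by simp⟩⟩ else (0 : ℂ))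
    by_cases h : d 0 + d 1 < k <;> simp [h]

theorem coeff_lf {k : ℕ} (c : T k → ℂ) (d : Fin 2 →₀ ℕ) :
    coeff d (lf k c) = if h : d 0 + d 1 < k then c ⟨⟨d 0 + d 1, h⟩, ⟨d 1, by simp⟩⟩ else 0 := rfl

theorem tr_lf {k : ℕ} (c : T k → ℂ) : tr k (lf k c) = c := by
  ext ⟨⟨n, hn⟩, ⟨j, hj⟩⟩
  have hj' : j ≤ n := by simpa [Nat.lt_succ_iff] using hj
  show coeff (mon (n - j) j) (lf k c) = _
  rw [coeff_lf]
  have e : n - j + j = n := Nat.sub_add_cancel hj'
  have h : mon (n - j) j 0 + mon (n - j) j 1 < k := by simpa [e] using hn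
  rw [dif_pos h]
  have key : ∀ (a b : ℕ) (ha : a < k) (hb : b < a + 1), a = n → b = j → c ⟨⟨a, ha⟩, ⟨b, hb⟩⟩ = c ⟨⟨n, hn⟩, ⟨j, hj⟩⟩ := by
    rintro a b ha hb rfl rfl
    rfl
  refine key _ _ _ _ ?_ ?_
  · simpa using e
  · simp

theorem sub_lf_mem {k : ℕ} (f : R) : f - lf k (tr k f) ∈ M k := by
  rw [← tr_eq_zero, map_sub, tr_lf, sub_self]

/-! ## the transform -/

/-- the substitution `(x, y) = (x, x t)` -/
def B : R →ₐ[ℂ] R := substAlgHom (a := ![X 0, X 0 * X 1]) (hasSubst_of_constantCoeff_zero fun s => by fin_cases s <;> simp)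

theorem coeff_B (f : R) (d : Fin 2 →₀ ℕ) : coeff d (B f) = if d 1 ≤ d 0 then coeff (mon (d 0 - d 1) (d 1)) f else 0 := by
  classical
  have ha : HasSubst (![X 0, X 0 * X 1] : Fin 2 → R) := hasSubst_of_constantCoeff_zero fun s => by fin_cases s <;> simp
  have h1 : B f = subst (![X 0, X 0 * X 1] : Fin 2 → R) f := by
    rw [← coe_substAlgHom ha]
    rfl
  have h2 : ∀ e : Fin 2 →₀ ℕ, (e.prod fun s n => (![X 0, X 0 * X 1] : Fin 2 → R) s ^ n) = monomial (mon (e 0 + e 1) (e 1)) 1 := by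
    intro e
    rw [Finsupp.prod_fintype _ _ (by simp), Fin.prod_univ_two]
    show (X 0 : R) ^ (e 0) * (X 0 * X 1) ^ (e 1) = _
    rw [mul_pow, X_pow_eq, X_pow_eq, X_pow_eq, monomial_mul_monomial, monomial_mul_monomial, mul_one, mul_one, mon, single_add, add_assoc]
  rw [h1, coeff_subst ha]
  simp_rw [h2, coeff_monomial]
  by_cases h : d 1 ≤ d 0
  · rw [if_pos h, finsum_eq_single _ (mon (d 0 - d 1) (d 1))]
    · rw [if_pos, smul_eq_mul, mul_one]
      rw [mon_zero, mon_one, Nat.sub_add_cancel h]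
      exact eq_mon d
    · intro e he
      rw [if_neg, smul_zero]
      intro h3
      apply he
      have h4 := DFunLike.congr_fun h3 0
      have h5 := DFunLike.congr_fun h3 1
      simp only [mon_zero, mon_one] at h4 h5
      rw [eq_mon e]
      congr 1
      · omega
      · exact h5.symm
  · rw [if_neg h]
    refine (finsum_congr fun e => ?_).trans finsum_zero
    rw [if_neg, smul_zero]
    intro h3
    have h4 := DFunLike.congr_fun h3 0
    have h5 := DFunLike.congr_fun h3 1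
    simp only [mon_zero, mon_one] at h4 h5
    omega

/-- the transform `f (x, x t) / x ^ k` of a series of order at least `k` -/
def ph (k : ℕ) : R →ₗ[ℂ] R where
  toFun f := fun d => if d 1 ≤ d 0 + k then coeff (mon (d 0 + k - d 1) (d 1)) f else 0
  map_add' f g := by
    funext d
    show (if d 1 ≤ d 0 + k then coeff (mon (d 0 + k - d 1) (d 1)) (f + g) else 0) =
      (if d 1 ≤ d 0 + k then coeff (mon (d 0 + k - d 1) (d 1)) f else 0) + (if d 1 ≤ d 0 + k then coeff (mon (d 0 + k - d 1) (d 1)) g else 0)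
    by_cases h : d 1 ≤ d 0 + k <;> simp [h]
  map_smul' c f := by
    funext d
    show (if d 1 ≤ d 0 + k then coeff (mon (d 0 + k - d 1) (d 1)) (c • f) else 0) =
      c • (if d 1 ≤ d 0 + k then coeff (mon (d 0 + k - d 1) (d 1)) f else 0)
    by_cases h : d 1 ≤ d 0 + k <;> simp [h]

theorem coeff_ph (k : ℕ) (f : R) (d : Fin 2 →₀ ℕ) :
    coeff d (ph k f) = if d 1 ≤ d 0 + k then coeff (mon (d 0 + k - d 1) (d 1)) f else 0 := rfl

theorem coeff_X_pow_mul_mon (k : ℕ) (f : R) (d : Fin 2 →₀ ℕ) :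
    coeff d ((X 0 : R) ^ k * f) = if k ≤ d 0 then coeff (mon (d 0 - k) (d 1)) f else 0 := by
  classical
  rw [X_pow_eq, coeff_monomial_mul]
  by_cases h : k ≤ d 0
  · rw [if_pos h, if_pos (by simpa using h), one_mul]
    congr 1
    rw [eq_mon (d - single 0 k)]
    simp
  · rw [if_neg h, if_neg (by simpa using h)]

theorem B_eq {k : ℕ} {f : R} (hf : f ∈ M k) : B f = (X 0 : R) ^ k * ph k f := by
  ext d
  rw [coeff_B, coeff_X_pow_mul_mon]
  by_cases h : k ≤ d 0
  · rw [if_pos h, coeff_ph]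
    simp only [mon_zero, mon_one, Nat.sub_add_cancel h]
  · rw [if_neg h]
    by_cases h' : d 1 ≤ d 0
    · rw [if_pos h']
      exact mem_M.1 hf _ _ (by omega)
    · rw [if_neg h']

theorem X_pow_ne (k : ℕ) : (X 0 : R) ^ k ≠ 0 := pow_ne_zero _ fun h => by
  classical
  have := congrArg (coeff (single 0 1)) h
  rw [coeff_index_single_self_X] at this
  exact one_ne_zero this

theorem ph_mul {k l : ℕ} {f g : R} (hf : f ∈ M k) (hg : g ∈ M l) : ph (k + l) (f * g) = ph k f * ph l g := by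
  apply mul_left_cancel₀ (X_pow_ne (k + l))
  rw [← B_eq (mul_mem_M hf hg), map_mul, B_eq hf, B_eq hg, pow_add]
  ring

theorem ph_mem {k K : ℕ} {f : R} (hf : f ∈ M (k + K)) : ph k f ∈ M K := by
  refine mem_M.2 fun i j hij => ?_
  rw [coeff_ph]
  simp only [mon_zero, mon_one]
  split_ifs with h
  · exact mem_M.1 hf _ _ (by omega)
  · rfl

/-- the transform is onto, modulo series of high order -/
theorem exists_ph {k K : ℕ} (h : K ≤ k) (g : R) : ∃ f ∈ M k, ph k f - g ∈ M K := by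
  refine ⟨fun d => if k ≤ d 0 + d 1 then coeff (mon (d 0 + d 1 - k) (d 1)) g else 0, ?_, ?_⟩
  · refine mem_M.2 fun i j hij => ?_
    show (if k ≤ mon i j 0 + mon i j 1 then _ else (0 : ℂ)) = 0
    rw [if_neg (by simpa using hij)]
  · refine mem_M.2 fun i j hij => ?_
    rw [map_sub, coeff_ph]
    simp only [mon_zero, mon_one]
    rw [if_pos (by omega)]
    show (if k ≤ mon (i + k - j) j 0 + mon (i + k - j) j 1 then coeff (mon (mon (i + k - j) j 0 + mon (i + k - j) j 1 - k) (mon (i + k - j) j 1)) g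
      else (0 : ℂ)) - _ = 0
    simp only [mon_zero, mon_one]
    rw [if_pos (by omega), show i + k - j + j - k = i by omega, sub_self]

theorem ph_lf {k : ℕ} (c : T k → ℂ) : ph k (lf k c) = 0 := by
  ext d
  rw [coeff_ph, coeff_lf]
  simp only [mon_zero, mon_one, map_zero]
  split_ifs with h1 h2 <;> first | rfl | omega

end Pool.Agent.H74.SB
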